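import Mathlib
import Pool.Agent.MP_cdcde1_an.Count

set_option autoImplicit false
set_option maxSynthPendingDepth 3

namespace Pool.Agent.Results.MP_cdcde1_an.NotBidualQuotient

open Pool.Agent.MP_cdcde1_an

universe u

/-- The quotient of `F` by the range of the operator `κ` (with the quotient topology, which is the
one of the quotient norm) is isomorphic to `X`: there is a continuous linear equivalence. -/
def QuotientIso (𝕜 : Type) [NontriviallyNormedField 𝕜] {Y F : Type u}
    [NormedAddCommGroup Y] [NormedSpace 𝕜 Y] [NormedAddCommGroup F] [NormedSpace 𝕜 F]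
    (κ : Y →L[𝕜] F) (X : Type) [NormedAddCommGroup X] [NormedSpace 𝕜 X] : Prop :=
  Nonempty ((F ⧸ LinearMap.range κ.toLinearMap) ≃L[𝕜] X)

/-- The quotient of the bidual of `Y` by the canonical copy of `Y` is isomorphic to `X`. -/
def BidualQuotientIso (𝕜 : Type) [NontriviallyNormedField 𝕜] (Y : Type u)
    [NormedAddCommGroup Y] [NormedSpace 𝕜 Y] (X : Type) [NormedAddCommGroup X]
    [NormedSpace 𝕜 X] : Prop :=
  QuotientIso 𝕜 (NormedSpace.inclusionInDoubleDual 𝕜 Y) X

/-- Over the real and over the complex field there is a Banach space `X` that is not isomorphic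
to the quotient of the bidual of `Y` by the canonical copy of `Y`, for any Banach space `Y`. -/
theorem result (𝕜 : Type) [RCLike 𝕜] :
    ∃ (X : Type) (_ : NormedAddCommGroup X) (_ : NormedSpace 𝕜 X) (_ : CompleteSpace X),
      ∀ (Y : Type u) [NormedAddCommGroup Y] [NormedSpace 𝕜 Y] [CompleteSpace Y],
        ¬ BidualQuotientIso 𝕜 Y X := by
  obtain ⟨X, hX, h⟩ := exists_not_rep.{u} 𝕜
  refine ⟨X, inferInstance, inferInstance, hX.completeSpace_coe, fun Y _ _ _ ⟨U⟩ => ?_⟩
  let S : Submodule 𝕜 (StrongDual 𝕜 (StrongDual 𝕜 Y)) :=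
    LinearMap.range (NormedSpace.inclusionInDoubleDual 𝕜 Y).toLinearMap
  let q : StrongDual 𝕜 (StrongDual 𝕜 Y) →L[𝕜] Linf 𝕜 :=
    X.subtypeL.comp (U.toContinuousLinearMap.comp S.mkQL)
  have hq : ∀ u, q u = (U (S.mkQ u) : X) := fun _ => rfl
  refine h Y q ‖U.symm.toContinuousLinearMap‖
    ⟨ContinuousLinearMap.opNorm_nonneg _, fun u => (U (S.mkQ u)).2, fun x hx => subset_closure ?_, fun y => ?_,
      fun u ε hε => ?_⟩
  · obtain ⟨u, hu⟩ := S.mkQ_surjective (U.symm ⟨x, hx⟩)
    exact ⟨u, by rw [hq, hu]; simp⟩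
  · have : S.mkQ (kap 𝕜 Y y) = 0 := (Submodule.Quotient.mk_eq_zero S).2 ⟨y, rfl⟩
    rw [hq, this]; simp
  · obtain ⟨m, hm, hm'⟩ := Submodule.Quotient.norm_mk_lt (S.mkQ u) hε
    obtain ⟨y, hy⟩ : u - m ∈ S := by
      rw [← Submodule.Quotient.eq]
      exact hm.symm
    refine ⟨y, ?_⟩
    have h1 : u - kap 𝕜 Y y = m := by
      change kap 𝕜 Y y = u - m at hy
      rw [hy]; abel
    have h2 := U.symm.toContinuousLinearMap.le_opNorm (U (S.mkQ u))
    have h3 : U.symm.toContinuousLinearMap (U (S.mkQ u)) = S.mkQ u := by simp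
    rw [h3] at h2
    rw [h1]
    change ‖m‖ ≤ ‖U.symm.toContinuousLinearMap‖ * ‖U (S.mkQ u)‖ + ε
    linarith

end Pool.Agent.Results.MP_cdcde1_an.NotBidualQuotient
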